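import Pool.Agent.QHN.Final

/-!
# Quantitative Helly numbers of discrete planar sets grow sublinearly
-/

set_option autoImplicit false

namespace Pool.Agent.Results.MP_9d60b9_co.PlanarSublinear

open Pool.Agent.QHN

/-- For every discrete `S ⊆ ℝ²` with `h(S) < ∞` one has `c(S,k) = o(k)`. -/
theorem result (S : Set (E 2)) (hS : ∀ B ⊆ S, Bornology.IsBounded B → B.Finite)
    (hh : ∃ h : ℕ, HellyBound S 0 h) :
    ∀ ε : ℝ, 0 < ε → ∃ K : ℕ, ∀ k ≥ K, ∃ t : ℕ, (t : ℝ) ≤ ε * k ∧ HellyBound S k t :=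
  fun ε hε => planar S hS hh ε hε

end Pool.Agent.Results.MP_9d60b9_co.PlanarSublinear
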